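import Pool.Agent.H452.K14

/-!
# MP_4a0cc8_nt: curves which are isogenous over `K̄` and have isomorphic `n`-torsion

Let `K` be a number field, `E₀ : y² = x³ + Ax + B` and `E : y² = x³ + A'x + B'` elliptic curves over `K`
with `A ≠ 0`, `B ≠ 0`, `j` the invariant of `E₀`, `Δ = 4A³ + 27B²`, `p ≥ 5` a prime, `p ∣ n`, and suppose
that `E₀[n]` and `E[n]` are isomorphic as Galois modules.  Let `φ : E₀(K̄) → E(K̄)` be a homomorphism with
finite kernel such that `φ ∘ σ = ± σ ∘ φ` for every `σ ∈ Gal(K̄/K)`.  (If the curves are isogenous over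
`K̄` and have no complex multiplication, every isogeny with cyclic kernel has the last property, since
it is unique up to sign.)

**Result.**  Either `φ` commutes with all `σ ∈ Gal(K̄/K)` (so an isogeny `φ` is defined over `K`, and the
curves are isogenous over `K`, as Q1 asks), or the kernel of `φ` has a point of order `p` and `E₀[p]` has a
line stable under the Galois group, or there is a `d ∈ K`, which is not a square, such that

* `φ` commutes with `σ` if and only if `σ` fixes `√d` (so `φ` is defined over `K(√d)`, and `E` is isogenous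
  over `K` to the quadratic twist of `E₀` by `d`);
* `p ∣ ord_v(j)` for every prime `v` with `ord_v(j) < 0` which does not divide `p` (or with
  `8 ord_v(p) < p² - 1`);
* `K(√d)/K` is unramified at every prime `v ∤ p` (also above `2`) such that `ord_v(j) < 0`, or `v ∤ 2` and
  `ord_v(Δ)` is even, and at every prime `v ∣ p` with `p > 15 ord_v(p) + 1`;
* `-Δd` is a square in `K_v` if `v ∤ 2p`, `3 ∤ ord_v(B)`, `2 ord_v(B) < 3 ord_v(A)`;
* `-d` is a square in `K_v` if `v ∤ 2p`, `ord_v(A)` is odd, `3 ord_v(A) < 2 ord_v(B)` and `K(√d)` is unramified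
  at `v`;
* if `ord_v(j) < 0`, `v ∤ p`, then `d` is a square in `K_v` or `p ∣ N(v) + 1`;
* if `y² = x³ + ax + b`, `a, b ∈ 𝒪_K`, is a model of `E₀` and `v ∤ 2p(4a³ + 27b²)` a prime, then `d` is a square
  in `K_v` or `p` divides `N(v) + 1 - #E₀(k_v)`;
* if `v ∣ 2`, `ord_v(j) > 0` and the decomposition group of `v` acts on `E₀[3]` through a nonabelian group
  (or: `3 ∤ ord_v(j)`, `N(v) ≡ 2 mod 3`), then `d` is not a square in `K_v`; if the inertia group acts
  through a nonabelian group then `K(√d)` is ramified at `v`;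
* `E₀[p]` has a line which is stable under `Gal(K̄/K(√d))`, or `d` is negative at all real places of `K`,
  `p ∣ N(v)² - 1` for all `v ∤ p` with `ord_v(j) < 0`, and `ord_v(j) ≥ 0` for `v ∣ p` with
  `p > 15 ord_v(p) + 1`.

Proof.  Composing `φ` (divided by a power of `p`) with the congruence one gets an injective endomorphism
`a` of the plane `E₀[p]` with `a ∘ σ = χ(σ) σ ∘ a`, `χ(σ) = ±1`.  If `χ` is not trivial, `a` has trace `0`, the centraliser `C` of `a` in the image
`G` of the Galois group is commutative, and the elements of `G` outside `C` anticommute with `a`.  This is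
the situation which is studied in the files `J1` - `J25`, `K1` - `K10` (there for the exceptions to uniform
surjectivity, see `MP_d87173_nt.QuadraticCharacter`, where `p` is large); here `p ≥ 5` is arbitrary.
-/

set_option autoImplicit false

open WeierstrassCurve NumberField IsDedekindDomain

namespace Pool.Agent.Results.MP_4a0cc8_nt.GeometricExceptions

section
variable {K : Type} [Field K]

/-- The absolute Galois group. -/
abbrev Gal (K : Type) [Field K] : Type := AlgebraicClosure K ≃ₐ[K] AlgebraicClosure K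

/-- The curve `y² = x³ + Ax + B` over the field `K`. -/
def curve (A B : K) : WeierstrassCurve K := ⟨0, 0, 0, A, B⟩

/-- Its `j`-invariant. -/
noncomputable def invariant (A B : K) : K := 1728 * (4 * A ^ 3) / (4 * A ^ 3 + 27 * B ^ 2)

/-- The set of its points over the algebraic closure of `K`. -/
def Points (A B : K) : Type := ((curve A B).baseChange (AlgebraicClosure K)).toAffine.Point

open scoped Classical in
/-- The group law. -/
noncomputable instance (A B : K) : AddCommGroup (Points A B) :=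
  inferInstanceAs (AddCommGroup ((curve A B).baseChange (AlgebraicClosure K)).toAffine.Point)

open scoped Classical in
/-- The point `σ(P)`. -/
noncomputable def conj {A B : K} (σ : Gal K) (P : Points A B) : Points A B :=
  WeierstrassCurve.Affine.Point.map (W' := curve A B)
    (σ : AlgebraicClosure K →ₐ[K] AlgebraicClosure K) P

/-- The set of the points killed by `n`. -/
def Torsion (A B : K) (n : ℕ) : Set (Points A B) := {P | n • P = 0}

/-- The groups `E₀[n]` and `E[n]` are isomorphic as Galois modules (the values of `e` at the other points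
are irrelevant). -/
def Congruent (A B A' B' : K) (n : ℕ) : Prop :=
  ∃ e : Points A B → Points A' B', Set.BijOn e (Torsion A B n) (Torsion A' B' n) ∧
    (∀ P ∈ Torsion A B n, ∀ Q ∈ Torsion A B n, e (P + Q) = e P + e Q) ∧
    ∀ (σ : Gal K), ∀ P ∈ Torsion A B n, e (conj σ P) = conj σ (e P)

/-- The homomorphism `φ` commutes with `σ`. -/
def Commutes {A B A' B' : K} (φ : Points A B →+ Points A' B') (σ : Gal K) : Prop :=
  ∀ P, φ (conj σ P) = conj σ (φ P)

/-- The homomorphism `φ` has a finite kernel and commutes or anticommutes with each `σ`. -/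
def Signed {A B A' B' : K} (φ : Points A B →+ Points A' B') : Prop :=
  {P : Points A B | φ P = 0}.Finite ∧
    ∀ σ : Gal K, Commutes φ σ ∨ ∀ P, φ (conj σ P) = -conj σ (φ P)

/-- The kernel of `φ` contains no point of order `p`. -/
def KernelPrimeTo {A B A' B' : K} (p : ℕ) (φ : Points A B →+ Points A' B') : Prop :=
  ∀ P : Points A B, p • P = 0 → φ P = 0 → P = 0

/-- The element `d` is not a square, and `φ` commutes with `σ` if and only if `σ` fixes the square roots
of `d`. -/
def DefinedOver {A B A' B' : K} (φ : Points A B →+ Points A' B') (d : K) : Prop :=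
  ¬ IsSquare d ∧ ∀ (σ : Gal K) (s : AlgebraicClosure K),
    s ^ 2 = algebraMap K (AlgebraicClosure K) d → (σ s = s ↔ Commutes φ σ)

/-- Two elements of the set `G` of automorphisms do not commute on the `3`-torsion. -/
def Nonabelian (A B : K) (G : Set (Gal K)) : Prop :=
  ∃ σ ∈ G, ∃ τ ∈ G, ∃ P : Points A B, 3 • P = 0 ∧ conj σ (conj τ P) ≠ conj τ (conj σ P)

/-- Some line of the `p`-torsion is stable under the Galois group. -/
def HasStableLine (A B : K) (p : ℕ) : Prop :=
  ∃ P : Points A B, p • P = 0 ∧ P ≠ 0 ∧ ∀ σ : Gal K, ∃ k : ℤ, conj σ P = k • P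

/-- Some line of the `p`-torsion is stable under the automorphisms which fix the square roots of
`d`. -/
def HasStableLineOver (A B : K) (p : ℕ) (d : K) : Prop :=
  ∃ P : Points A B, p • P = 0 ∧ P ≠ 0 ∧ ∀ σ : Gal K,
    (∀ x : AlgebraicClosure K, x ^ 2 = algebraMap K (AlgebraicClosure K) d → σ x = x) →
    ∃ k : ℤ, conj σ P = k • P

end

variable {K : Type} [Field K] [NumberField K]

/-- The normalised valuation `ord_v(x)` of `x ∈ K`, for a prime `v` of `K` (used for `x ≠ 0`; for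
`x = 0` the value is `0` by convention). -/
noncomputable def ord (v : HeightOneSpectrum (𝓞 K)) (x : K) : ℤ := -WithZero.log (v.valuation K x)

/-- The element `c ≠ 0` is a square in the completion of `K` at `v`: there is a `y` such that `c / y²`
is `1` modulo `4 π`, where `π` is a uniformiser. -/
def LocalSquare (v : HeightOneSpectrum (𝓞 K)) (c : K) : Prop :=
  ∃ y : K, y ≠ 0 ∧ (c / y ^ 2 - 1 = 0 ∨ 2 * ord v 2 + 1 ≤ ord v (c / y ^ 2 - 1))

/-- The extension generated by a square root of `d ≠ 0` is unramified at `v`: there is a `y` such that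
`d / y²` is a unit and `1` modulo `4`. -/
def Unramified (v : HeightOneSpectrum (𝓞 K)) (d : K) : Prop :=
  ∃ y : K, y ≠ 0 ∧ ord v d = 2 * ord v y ∧
    (d / y ^ 2 - 1 = 0 ∨ 2 * ord v 2 ≤ ord v (d / y ^ 2 - 1))

/-- The prime ideal `𝔓` of the ring of all algebraic integers of `K̄` is above `v`. -/
def Above (𝔓 : Ideal (𝓞 (AlgebraicClosure K))) (v : HeightOneSpectrum (𝓞 K)) : Prop :=
  𝔓.IsPrime ∧ 𝔓.comap (algebraMap (𝓞 K) (𝓞 (AlgebraicClosure K))) = v.asIdeal

/-- The decomposition group of a prime ideal `𝔓` of the ring of all algebraic integers of `K̄`: the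
automorphisms `σ` such that an algebraic integer `x` lies in `𝔓` if and only if `σ(x)` does. -/
def decomposition (𝔓 : Ideal (𝓞 (AlgebraicClosure K))) : Set (Gal K) :=
  {σ | ∀ x : 𝓞 (AlgebraicClosure K), x ∈ 𝔓 ↔
    ∃ y ∈ 𝔓, σ (x : AlgebraicClosure K) = (y : AlgebraicClosure K)}

/-- The inertia group of `𝔓`: the automorphisms `σ` such that `σ(x) - x` lies in `𝔓` for all algebraic
integers `x`. -/
def inertia (𝔓 : Ideal (𝓞 (AlgebraicClosure K))) : Set (Gal K) :=
  {σ | ∀ x : 𝓞 (AlgebraicClosure K), ∃ y ∈ 𝔓,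
    σ (x : AlgebraicClosure K) - (x : AlgebraicClosure K) = (y : AlgebraicClosure K)}

/-- The number of elements of the residue field of `v`. -/
noncomputable def norm (v : HeightOneSpectrum (𝓞 K)) : ℕ := Nat.card (𝓞 K ⧸ v.asIdeal)

/-- The number of points (with the point at infinity) of the reduction of `y² = x³ + ax + b` modulo
`v`. -/
noncomputable def numPoints (v : HeightOneSpectrum (𝓞 K)) (a b : 𝓞 K) : ℕ :=
  1 + Nat.card {P : (𝓞 K ⧸ v.asIdeal) × (𝓞 K ⧸ v.asIdeal) // P.2 ^ 2 =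
    P.1 ^ 3 + Ideal.Quotient.mk v.asIdeal a * P.1 + Ideal.Quotient.mk v.asIdeal b}

/-- The element `d` is compatible with the curve `y² = x³ + Ax + B` and with `p`. -/
structure Compatible (A B : K) (p : ℕ) (d : K) : Prop where
  poles : ∀ v : HeightOneSpectrum (𝓞 K), ord v (invariant A B) < 0 →
    ((p : 𝓞 K) ∉ v.asIdeal ∨ 8 * ord v (p : K) < (p : ℤ) ^ 2 - 1) →
    (p : ℤ) ∣ ord v (invariant A B)
  unramified : ∀ v : HeightOneSpectrum (𝓞 K), (p : 𝓞 K) ∉ v.asIdeal →
    (ord v (invariant A B) < 0 ∨ (ord v 2 = 0 ∧ (2 : ℤ) ∣ ord v (4 * A ^ 3 + 27 * B ^ 2))) →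
    Unramified v d
  unramified_above : ∀ v : HeightOneSpectrum (𝓞 K), (p : 𝓞 K) ∈ v.asIdeal →
    15 * ord v (p : K) + 1 < p → Unramified v d
  three : ∀ v : HeightOneSpectrum (𝓞 K), (p : 𝓞 K) ∉ v.asIdeal → ord v 2 = 0 →
    ¬ (3 : ℤ) ∣ ord v B → 2 * ord v B < 3 * ord v A →
    LocalSquare v (-(4 * A ^ 3 + 27 * B ^ 2) * d)
  four : ∀ v : HeightOneSpectrum (𝓞 K), (p : 𝓞 K) ∉ v.asIdeal → ord v 2 = 0 →
    ¬ (2 : ℤ) ∣ ord v A → 3 * ord v A < 2 * ord v B → Unramified v d → LocalSquare v (-d)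
  multiplicative : ∀ v : HeightOneSpectrum (𝓞 K), (p : 𝓞 K) ∉ v.asIdeal →
    ord v (invariant A B) < 0 → LocalSquare v d ∨ p ∣ norm v + 1
  points : ∀ (u : K) (a b : 𝓞 K), u ≠ 0 → A = u ^ 4 * (a : K) → B = u ^ 6 * (b : K) →
    ∀ v : HeightOneSpectrum (𝓞 K), (2 : 𝓞 K) ∉ v.asIdeal → (p : 𝓞 K) ∉ v.asIdeal →
      4 * a ^ 3 + 27 * b ^ 2 ∉ v.asIdeal →
      LocalSquare v d ∨ (p : ℤ) ∣ (norm v : ℤ) + 1 - numPoints v a b
  two_decomposition : ∀ v : HeightOneSpectrum (𝓞 K), (2 : 𝓞 K) ∈ v.asIdeal →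
    0 < ord v (invariant A B) →
    ((∃ 𝔓, Above 𝔓 v ∧ Nonabelian A B (decomposition 𝔓)) ∨
      (¬ (3 : ℤ) ∣ ord v (invariant A B) ∧ norm v % 3 = 2)) → ¬ LocalSquare v d
  two_inertia : ∀ v : HeightOneSpectrum (𝓞 K), (2 : 𝓞 K) ∈ v.asIdeal →
    0 < ord v (invariant A B) → (∃ 𝔓, Above 𝔓 v ∧ Nonabelian A B (inertia 𝔓)) → ¬ Unramified v d

/-- The element `d` is negative at the real places, `p` divides `N(v)² - 1` whenever `v` does not divide
`p` and `ord_v(j)` is negative, and `ord_v(j)` is not negative for `v` above `p` with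
`p > 15 ord_v(p) + 1`. -/
def Nonsplit (A B : K) (p : ℕ) (d : K) : Prop :=
  (∀ φ : K →+* ℝ, φ d < 0) ∧
  (∀ v : HeightOneSpectrum (𝓞 K), (p : 𝓞 K) ∉ v.asIdeal → ord v (invariant A B) < 0 →
    (p : ℤ) ∣ (norm v : ℤ) ^ 2 - 1) ∧
  ∀ v : HeightOneSpectrum (𝓞 K), (p : 𝓞 K) ∈ v.asIdeal → 15 * ord v (p : K) + 1 < p →
    ¬ ord v (invariant A B) < 0

open scoped Classical in
/-- the isomorphism of the groups -/
theorem exists_equiv {A B A' B' : K} {n : ℕ} (h : Congruent A B A' B' n) :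
    ∃ e : Pool.Agent.H452.TE A B n ≃+ Pool.Agent.H452.TE A' B' n,
      ∀ σ P, e (Pool.Agent.H452.aT A B n σ P) = Pool.Agent.H452.aT A' B' n σ (e P) := by
  obtain ⟨e, h1, h2, h3⟩ := h
  set f : Torsion A B n ≃ Torsion A' B' n := Set.BijOn.equiv e h1 with hf
  refine ⟨⟨f, fun P Q => ?_⟩, fun σ P => ?_⟩
  · apply Subtype.ext
    exact h2 P.1 P.2 Q.1 Q.2
  · apply Subtype.ext
    exact h3 σ P.1 P.2

/-- **Curves with isomorphic `n`-torsion which are isogenous over `K̄`.** -/
theorem result {A B A' B' : K} (hD : 4 * A ^ 3 + 27 * B ^ 2 ≠ 0)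
    (_hD' : 4 * A' ^ 3 + 27 * B' ^ 2 ≠ 0) (hA : A ≠ 0) (hB : B ≠ 0) {n p : ℕ} (hp : p.Prime)
    (hp5 : 5 ≤ p) (hpn : p ∣ n) (hcong : Congruent A B A' B' n)
    (φ : Points A B →+ Points A' B') (hφ : Signed φ) :
    (∀ σ, Commutes φ σ) ∨ (¬ KernelPrimeTo p φ ∧ HasStableLine A B p) ∨
    ∃ d : K, DefinedOver φ d ∧ Compatible A B p d ∧
      (HasStableLineOver A B p d ∨ Nonsplit A B p d) := by
  have hj : Pool.Agent.Y673.Loc.jv A B = invariant A B := by
    unfold Pool.Agent.Y673.Loc.jv invariant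
    ring
  obtain ⟨e, he⟩ := exists_equiv hcong
  obtain ⟨hfin, hs⟩ := hφ
  rcases Pool.Agent.H452.geom_main hD hA hB hp hp5 hpn e he φ hfin hs with h | h | h
  · exact Or.inl h
  · obtain ⟨⟨P, h1, h2, h3⟩, h4, -⟩ := h
    exact Or.inr (Or.inl ⟨fun hker => h2 (hker P h1 h3), h4⟩)
  · right; right
    obtain ⟨d, hd, hd', h1, ⟨h2, ⟨h3, h4⟩, h5, ⟨h6, h7⟩, -, h9⟩, h10⟩ := h
    rw [hj] at h1 h2 h5
    refine ⟨d, ⟨hd, hd'⟩, ⟨h1, fun v hpv hv => h2 v (Or.inl ⟨hpv, hv⟩),
      fun v hpv hlt => h2 v (Or.inr ⟨hpv, hlt⟩), fun v hpv e1 e2 e3 => h3 v ⟨e1, e2, e3⟩ hpv,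
      fun v hpv e1 e2 e3 => h4 v ⟨e1, e2, e3⟩ hpv, fun v hpv hv => h5 v hv (Or.inl hpv), h9,
      fun v h2v hjv hv => h6 v ?_, fun v h2v hjv hv => h7 v ?_⟩, ?_⟩
    · rcases hv with ⟨𝔓, ⟨e1, e2⟩, e3⟩ | ⟨e1, e2⟩
      · refine Or.inl ⟨h2v, ?_, 𝔓, e1, e2, e3⟩
        rw [hj]; exact hjv
      · refine Or.inr ⟨h2v, ?_, ?_, e2⟩
        · rw [hj]; exact hjv
        · rw [hj]; exact e1
    · obtain ⟨𝔓, ⟨e1, e2⟩, e3⟩ := hv
      refine ⟨h2v, ?_, 𝔓, e1, e2, e3⟩
      rw [hj]; exact hjv
    · rcases h10 with h | ⟨e1, e2, e3⟩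
      · exact Or.inl h
      · rw [hj] at e2 e3
        exact Or.inr ⟨e1, fun v hpv hv => e2 v hv hpv, e3⟩

end Pool.Agent.Results.MP_4a0cc8_nt.GeometricExceptions
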