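import Pool.Agent.H502.EC.A10

/-!
# MP_4a0cc8_nt: congruences between the numbers of points at a small proportion of the places decide whether a curve is `p`-congruent to a quadratic twist of a given curve

Let `K` be a number field, `p ≥ 5` a prime and `E₀ : y² = x³ + A₀x + B₀` an elliptic curve with
coefficients in the ring of integers of `K` such that in a suitable basis of `E₀[p]` every matrix of
determinant one over `𝔽_p` is the matrix of an element of the absolute Galois group of `K`. (For a given
`E₀` without complex multiplication this holds for all but finitely many `p` by Serre's theorem.) Let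
`E : y² = x³ + Ax + B` be ANY elliptic curve over `K` with integral coefficients.

**Result.** The following are equivalent:

(1) there is `d ≠ 0` in the ring of integers such that `E[p]` is isomorphic to `E₀^{(d)}[p]`, where
    `E₀^{(d)} : y² = x³ + A₀d²x + B₀d³` is the quadratic twist;
(2) `#E₀(k_v) ≡ #E(k_v) mod p` for a set of places `v` of upper density greater than `1 / (p - 1)`;
(3) this set has upper density at least `1 / 2`.

So the proportion `1 / (p - 1)`, which is arbitrarily small for large `p`, is enough; and there is no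
curve `E` for which the upper density is between `1 / (p - 1)` and `1 / 2`.

Proof. For a Frobenius element `σ` at a place `v` of good reduction prime to `2 p` one has
`σ² - a_v σ + q_v = 0` on `E[p]`, `a_v = q_v + 1 - #E(k_v)`. From this relation, Chebotarev's density
theorem and the Weil pairing one gets a representation `ρ` of the Galois group with traces `a_v` and
cyclotomic determinant which is the one on `E[p]` or abelian. Let `ρ₀` be the representation on `E₀[p]`.
By Goursat's lemma and the simplicity of `PSL₂(𝔽_p)` either `ρ₀(ker ρ)` contains `SL₂(𝔽_p)`; then `ρ` is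
constant on cosets on which `ρ₀` takes all values in cosets of `SL₂(𝔽_p)`, in which a given trace occurs
with proportion at most `1 / (p - 1)`. Or `ρ ≅ ρ₀ ⊗ ε` for a character `ε`, and the determinants show
`ε² = 1`. The fixed field of the kernel of `ε` is `K(√d)`, and `E[p] ≅ E₀^{(d)}[p]`.
-/

set_option autoImplicit false

open WeierstrassCurve NumberField IsDedekindDomain

namespace Pool.Agent.Results.MP_4a0cc8_nt.PositiveProportionUpToTwist

section
variable {K : Type} [Field K]

/-- The absolute Galois group. -/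
abbrev Gal (K : Type) [Field K] : Type := AlgebraicClosure K ≃ₐ[K] AlgebraicClosure K

/-- The curve `y² = x³ + Ax + B` over the field `K`. -/
def curve (A B : K) : WeierstrassCurve K := ⟨0, 0, 0, A, B⟩

/-- The set of its points over the algebraic closure of `K`. -/
def Points (A B : K) : Type := ((curve A B).baseChange (AlgebraicClosure K)).toAffine.Point

open scoped Classical in
/-- The group law. -/
noncomputable instance (A B : K) : AddCommGroup (Points A B) :=
  inferInstanceAs (AddCommGroup ((curve A B).baseChange (AlgebraicClosure K)).toAffine.Point)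

open scoped Classical in
/-- The point `σ(P)`. -/
noncomputable def conj {A B : K} (σ : Gal K) (P : Points A B) : Points A B :=
  WeierstrassCurve.Affine.Point.map (W' := curve A B)
    (σ : AlgebraicClosure K →ₐ[K] AlgebraicClosure K) P

/-- The set of the points killed by `n`. -/
def Torsion (A B : K) (n : ℕ) : Set (Points A B) := {P | n • P = 0}

/-- The curves are `n`-congruent: there is an isomorphism `e : E[n] → E'[n]` of groups which commutes
with the Galois group (the values of `e` at the other points are irrelevant). -/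
def Congruent (A B A' B' : K) (n : ℕ) : Prop :=
  ∃ e : Points A B → Points A' B', Set.BijOn e (Torsion A B n) (Torsion A' B' n) ∧
    (∀ P ∈ Torsion A B n, ∀ Q ∈ Torsion A B n, e (P + Q) = e P + e Q) ∧
    ∀ (σ : Gal K), ∀ P ∈ Torsion A B n, e (conj σ P) = conj σ (e P)

/-- The points `P` and `Q` form a basis of the `n`-torsion. -/
def IsBasis {A B : K} (n : ℕ) (P Q : Points A B) : Prop :=
  n • P = 0 ∧ n • Q = 0 ∧ (∀ R : Points A B, n • R = 0 → ∃ k m : ℤ, R = k • P + m • Q) ∧
    ∀ k m : ℤ, k • P + m • Q = 0 → (n : ℤ) ∣ k ∧ (n : ℤ) ∣ m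

/-- There is a basis `P, Q` of the `p`-torsion in which every matrix of determinant `1` modulo `p` is
the matrix of some element of the Galois group. -/
def ContainsSL (A B : K) (p : ℕ) : Prop :=
  ∃ P Q : Points A B, IsBasis p P Q ∧ ∀ a b c d : ℤ, (p : ℤ) ∣ a * d - b * c - 1 →
    ∃ σ : Gal K, conj σ P = a • P + c • Q ∧ conj σ Q = b • P + d • Q

end

section
variable {K : Type} [Field K] [NumberField K]

/-- The number of points of the reduction of `y² = x³ + Ax + B` modulo `v`. -/
noncomputable def numPoints (v : HeightOneSpectrum (𝓞 K)) (A B : 𝓞 K) : ℕ :=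
  1 + Nat.card {P : (𝓞 K ⧸ v.asIdeal) × (𝓞 K ⧸ v.asIdeal) // P.2 ^ 2 =
    P.1 ^ 3 + Ideal.Quotient.mk v.asIdeal A * P.1 + Ideal.Quotient.mk v.asIdeal B}

/-- The upper density of the set `S` of places is greater than `c`: for some `δ > c` there are
arbitrarily large `N` such that the proportion of the elements of `S` among the places of norm at most
`N` is at least `δ`. -/
def UpperDensityGreater (S : Set (HeightOneSpectrum (𝓞 K))) (c : ℝ) : Prop :=
  ∃ δ > c, ∀ M : ℕ, ∃ N ≥ M,
    δ * ({v : HeightOneSpectrum (𝓞 K) | Ideal.absNorm v.asIdeal ≤ N}.ncard : ℝ) ≤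
      ({v : HeightOneSpectrum (𝓞 K) | v ∈ S ∧ Ideal.absNorm v.asIdeal ≤ N}.ncard : ℝ)

end

section
open Pool.Agent.Y673.Loc Pool.Agent.H502.EC Pool.Agent.W401.Cheb
variable {K : Type} [Field K]

open scoped Classical in
theorem congruent_of_isoP {A B A' B' : K} {p : ℕ} (h : IsoP A B A' B' p) :
    Congruent A B A' B' p := by
  obtain ⟨f, hf⟩ := h
  have m1 : ∀ P : Points A B, P ∈ Torsion A B p → (P : EP A B) ∈ TT A B p := fun P hP => hP
  let e : Points A B → Points A' B' := fun P => by
    by_cases hP : P ∈ Torsion A B p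
    · exact ((f ⟨P, hP⟩ : TT A' B' p) : EP A' B')
    · exact (0 : EP A' B')
  have he : ∀ P (hP : P ∈ Torsion A B p), e P = ((f ⟨P, hP⟩ : TT A' B' p) : EP A' B') := by
    intro P hP
    simp only [e]
    rw [dif_pos hP]
  refine ⟨e, ⟨?_, ?_, ?_⟩, ?_, ?_⟩
  · intro P hP
    rw [he P hP]
    exact (f ⟨P, hP⟩).2
  · intro P hP Q hQ hPQ
    rw [he P hP, he Q hQ] at hPQ
    have h1 := f.injective (Subtype.ext hPQ)
    exact congrArg Subtype.val h1
  · intro Q hQ
    obtain ⟨R, hR⟩ := f.surjective (⟨Q, hQ⟩ : TT A' B' p)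
    refine ⟨R.1, R.2, ?_⟩
    rw [he R.1 R.2]
    exact congrArg Subtype.val hR
  · intro P hP Q hQ
    have hPQ : P + Q ∈ Torsion A B p := by
      change p • (P + Q) = 0
      rw [smul_add, show p • P = 0 from hP, show p • Q = 0 from hQ, add_zero]
    rw [he _ hPQ, he P hP, he Q hQ]
    exact congrArg Subtype.val (f.map_add ⟨P, hP⟩ ⟨Q, hQ⟩)
  · intro σ P hP
    have h1 : conj σ P ∈ Torsion A B p := (aa A B p σ ⟨P, hP⟩).2
    rw [he _ h1, he P hP]
    exact congrArg Subtype.val (hf σ ⟨P, hP⟩)

open scoped Classical in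
theorem isoP_of_congruent {A B A' B' : K} {p : ℕ} (h : Congruent A B A' B' p) :
    IsoP A B A' B' p := by
  obtain ⟨e, hb, hadd, hσ⟩ := h
  let F : TT A B p →+ TT A' B' p :=
    AddMonoidHom.mk' (fun R => ⟨e R.1, hb.mapsTo R.2⟩) (fun R S => Subtype.ext (hadd R.1 R.2 S.1 S.2))
  have hF : Function.Bijective F := by
    constructor
    · intro R S hRS
      exact Subtype.ext (hb.injOn R.2 S.2 (congrArg Subtype.val hRS))
    · intro Q
      obtain ⟨P, hP, hPQ⟩ := hb.surjOn Q.2
      exact ⟨⟨P, hP⟩, Subtype.ext hPQ⟩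
  refine ⟨AddEquiv.ofBijective F hF, fun x R => ?_⟩
  exact Subtype.ext (hσ x R.1 R.2)

open scoped Classical in
theorem containsSL {A B : K} {p : ℕ} (h : ContainsSL A B p) : HasSLp A B p := by
  obtain ⟨P, Q, ⟨h1, h2, h3, h4⟩, h5⟩ := h
  exact ⟨P, Q, h1, h2, h3, h4, h5⟩

end

/-- **A curve is `p`-congruent to a quadratic twist of `E₀` if and only if the numbers of points are
congruent modulo `p` at a set of places of upper density greater than `1 / (p - 1)`; the density is then
at least `1 / 2`.** Here `p ≥ 5` and the Galois group acts on the `p`-torsion of `E₀` through a group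
which contains `SL₂(𝔽_p)`. -/
theorem result (K : Type) [Field K] [NumberField K] (A₀ B₀ A B : 𝓞 K)
    (hE₀ : 4 * A₀ ^ 3 + 27 * B₀ ^ 2 ≠ 0) (hE : 4 * A ^ 3 + 27 * B ^ 2 ≠ 0)
    (p : ℕ) (hp : p.Prime) (h5 : 5 ≤ p) (hSL : ContainsSL (A₀ : K) (B₀ : K) p) :
    List.TFAE [
      ∃ d : 𝓞 K, d ≠ 0 ∧
        Congruent ((A₀ * d ^ 2 : 𝓞 K) : K) ((B₀ * d ^ 3 : 𝓞 K) : K) (A : K) (B : K) p,
      UpperDensityGreater {v : HeightOneSpectrum (𝓞 K) |
        (p : ℤ) ∣ (numPoints v A₀ B₀ : ℤ) - numPoints v A B} ((1 : ℝ) / (p - 1)),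
      ∀ c < (1 / 2 : ℝ), UpperDensityGreater {v : HeightOneSpectrum (𝓞 K) |
        (p : ℤ) ∣ (numPoints v A₀ B₀ : ℤ) - numPoints v A B} c] := by
  haveI : Fact p.Prime := ⟨hp⟩
  have h := Pool.Agent.H502.EC.twist_iff hE₀ hE h5 (containsSL hSL)
  have hp' : (5 : ℝ) ≤ p := by exact_mod_cast h5
  tfae_have 1 → 3 := by
    rintro ⟨d, hd, hc⟩ c hc'
    exact Pool.Agent.H502.EC.twist_half hE₀ hE h5 ⟨d, hd, isoP_of_congruent hc⟩ hc'
  tfae_have 3 → 2 := by
    intro hc
    apply hc
    apply one_div_lt_one_div_of_lt (by norm_num)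
    linarith
  tfae_have 2 → 1 := by
    intro hc
    obtain ⟨d, hd, hi⟩ := h.2 hc
    exact ⟨d, hd, congruent_of_isoP hi⟩
  tfae_finish

end Pool.Agent.Results.MP_4a0cc8_nt.PositiveProportionUpToTwist
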